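import Pool.Agent.H330.PU

/-!
# Puig's finiteness conjecture: primitive permutation groups with three normal subgroups suffice

Let `p` be a prime, and let `q > 7` be a prime with `p ∣ q + 1` (and `4 ∣ q + 1` if `p = 2`); there
are infinitely many such `q`. Let `X_n` be the permutational wreath product of `PSL(2, q)` and the
alternating group `A_n` in its action on the `n (n - 1)` ordered pairs of distinct points. Let `k` be
an algebraically closed field of characteristic `p`.

(1) For `n ≥ 5` the group `X_n` has exactly three normal subgroups `1 < M < X_n`, where
`M = PSL(2, q) ^ (n (n - 1))` and `X_n / M = A_n`, and `X_n` is isomorphic to a primitive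
permutation group.

(2) Every source algebra of a block of a finite group `G` is isomorphic, as an interior algebra, to a
source algebra of a block of `X_n`, for all `n ≥ |G| ^ 2 + 3 |G|`.

(3) So for every `p`-group `P` the following are equivalent: the source algebras of the blocks of all
finite groups with defect groups isomorphic to `P` fall into finitely many isomorphism classes of
interior algebras; this is true for the blocks of the groups `X_n`, `n` in an infinite set; this is
true for the blocks of the finite primitive permutation groups which have exactly three normal
subgroups.

Idea of the proof (with the block theory of helper373, `Pool.Agent.H373`). There are a subgroup `V` of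
the base group of `X_n` of order prime to `p`, normalised by `G ≤ X_n`, and a `G`-invariant linear
character of `V` which satisfies Mackey's condition outside `V G`. Let `ε` be the idempotent of the
linear character. Then `ε kX_n ε = ε kG`, and `a ↦ ε a` maps a source idempotent `i` of the block `e`
to a source idempotent of the corresponding block of `X_n`, and `i kG i` onto its source algebra.
-/

set_option autoImplicit false

open Pool.Agent.H373.MN Pool.Agent.H330.PU

theorem Pool.Agent.Results.MP_cea1f0_al.ThreeNormalSubgroups.result (p : ℕ) [Fact p.Prime] :
    (∀ N : ℕ, ∃ q, N < q ∧ Good p q) ∧
    ∀ q, Good p q →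
      (∀ n, 5 ≤ n → ThreeNormal p q n (XP n q) ∧ IsPrimitiveGroup (XP n q)) ∧
      ∀ (k : Type) [Field k] [IsAlgClosed k] [CharP k p],
        (∀ (s : Src p k) (n : ℕ), Nat.card s.G ^ 2 + 3 * Nat.card s.G ≤ n →
          ∃ t : Src p k, Nonempty (t.G ≃* XP n q) ∧ SrcIso s t) ∧
        ∀ (P : Type) [Group P],
          (∀ S : Set ℕ, S.Infinite → (Puig p k P All ↔ Puig p k P (InXP q S))) ∧
          (Puig p k P All ↔ Puig p k P PrimitiveThree) :=
  main_puig p
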